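import Pool.Agent.Y892.DP.Stm2

/-!
# Job DP-KRN: the sum of Knörr and Robinson for a cyclic extension (helper475)
-/

set_option autoImplicit false

open scoped Classical BigOperators

noncomputable section

namespace Pool.Agent.Y475.DP

open Pool.Agent.Y63.KR Pool.Agent.Y892.DP

section

variable {G : Type} [Group G] {N : Subgroup G} {e : G}

theorem conj_zpow (he : conjSub e N = N) (l : ℤ) {z : G} : (e ^ l)⁻¹ * z * e ^ l ∈ N ↔ z ∈ N := by
  have h1 : e ^ l ∈ Subgroup.normalizer (N : Set G) := zpow_mem (conjSub_eq_iff.1 he) l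
  have h2 := conjSub_eq_iff.2 h1
  rw [← mem_conjSub, h2]

theorem cmul (he : conjSub e N = N) {k l : ℤ} {x y : G} (hx : (e ^ k)⁻¹ * x ∈ N)
    (hy : (e ^ l)⁻¹ * y ∈ N) : (e ^ (k + l))⁻¹ * (x * y) ∈ N := by
  have h1 := (conj_zpow he l).2 hx
  have h2 := N.mul_mem h1 hy
  have e1 : (e ^ l)⁻¹ * ((e ^ k)⁻¹ * x) * e ^ l * ((e ^ l)⁻¹ * y) = (e ^ (k + l))⁻¹ * (x * y) := by
    rw [zpow_add]
    group
  rwa [e1] at h2

theorem cinv (he : conjSub e N = N) {k : ℤ} {x : G} (hx : (e ^ k)⁻¹ * x ∈ N) :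
    (e ^ (-k))⁻¹ * x⁻¹ ∈ N := by
  have h1 := N.inv_mem hx
  have h2 := (conj_zpow he (-k)).2 h1
  have e1 : (e ^ (-k))⁻¹ * ((e ^ k)⁻¹ * x)⁻¹ * e ^ (-k) = (e ^ (-k))⁻¹ * x⁻¹ := by
    rw [zpow_neg]
    group
  rwa [e1] at h2

theorem cpow' (he : conjSub e N = N) {k : ℤ} {x : G} (hx : (e ^ k)⁻¹ * x ∈ N) (t : ℕ) :
    (e ^ (k * t))⁻¹ * x ^ t ∈ N := by
  induction t with
  | zero => simp [N.one_mem]
  | succ t ih =>
    have := cmul he ih hx
    rw [pow_succ]
    have e1 : k * ((t + 1 : ℕ) : ℤ) = k * t + k := by push_cast; ring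
    rw [e1]
    exact this

theorem zmem {m : ℕ} (hk : ∀ k : ℕ, e ^ k ∈ N ↔ m ∣ k) (k : ℤ) : e ^ k ∈ N ↔ (m : ℤ) ∣ k := by
  obtain ⟨n, rfl | rfl⟩ := k.eq_nat_or_neg
  · rw [zpow_natCast, hk, Int.natCast_dvd_natCast]
  · rw [zpow_neg, inv_mem_iff, zpow_natCast, hk, dvd_neg, Int.natCast_dvd_natCast]

/-- the members of the extension -/
theorem mem_ext (he : conjSub e N = N) {m d : ℕ} (hm : 0 < m) (hk : ∀ k : ℕ, e ^ k ∈ N ↔ m ∣ k)
    (hd : d ∣ m) (x : G) :
    x ∈ N ⊔ Subgroup.zpowers (e ^ d) ↔ ∃ i < m / d, (e ^ (d * i))⁻¹ * x ∈ N := by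
  constructor
  · intro hx
    have h1 : ∃ l : ℤ, (e ^ ((d : ℤ) * l))⁻¹ * x ∈ N := by
      let K : Subgroup G :=
        { carrier := {x | ∃ l : ℤ, (e ^ ((d : ℤ) * l))⁻¹ * x ∈ N}
          mul_mem' := by
            rintro a b ⟨k, hk⟩ ⟨l, hl⟩
            refine ⟨k + l, ?_⟩
            rw [mul_add]
            exact cmul he hk hl
          one_mem' := ⟨0, by simp [N.one_mem]⟩
          inv_mem' := by
            rintro a ⟨k, hk⟩
            refine ⟨-k, ?_⟩
            rw [mul_neg]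
            exact cinv he hk }
      have h2 : N ⊔ Subgroup.zpowers (e ^ d) ≤ K := by
        rw [sup_le_iff]
        constructor
        · intro y hy
          exact ⟨0, by simpa using hy⟩
        · rw [Subgroup.zpowers_le]
          refine ⟨1, ?_⟩
          rw [mul_one, zpow_natCast, inv_mul_cancel]
          exact N.one_mem
      exact h2 hx
    obtain ⟨l, hl⟩ := h1
    obtain ⟨q, rfl⟩ := hd
    have hd0 : 0 < d := by
      rcases Nat.eq_zero_or_pos d with h0 | h0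
      · subst h0; simp at hm
      · exact h0
    have hq0 : 0 < q := by
      rcases Nat.eq_zero_or_pos q with h0 | h0
      · subst h0; simp at hm
      · exact h0
    rw [Nat.mul_div_cancel_left _ hd0]
    have hr : 0 ≤ l % q := Int.emod_nonneg _ (by exact_mod_cast hq0.ne')
    have hr' : l % q < q := Int.emod_lt_of_pos _ (by exact_mod_cast hq0)
    refine ⟨(l % q).toNat, ?_, ?_⟩
    · zify
      rw [Int.toNat_of_nonneg hr]
      exact hr'
    · have e1 : e ^ (d * (l % q).toNat) = e ^ ((d : ℤ) * (l % q)) := by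
        rw [← zpow_natCast]
        congr 1
        rw [Nat.cast_mul, Int.toNat_of_nonneg hr]
      rw [e1]
      have e2 : (d : ℤ) * (l % q) = (-((d * q : ℕ) : ℤ) * (l / q)) + d * l := by
        have := Int.emod_add_mul_ediv l q
        push_cast
        have h3 : l % q = l - q * (l / q) := by linarith
        rw [h3]
        ring
      have h4 : e ^ (-((d * q : ℕ) : ℤ) * (l / q)) ∈ N := by
        rw [zmem hk]
        exact Dvd.intro _ (by ring : ((d * q : ℕ) : ℤ) * (-(l / q)) = -((d * q : ℕ) : ℤ) * (l / q))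
      have h5 : (e ^ ((d : ℤ) * (l % q)))⁻¹ * x =
          (e ^ ((d : ℤ) * l))⁻¹ * (e ^ (-((d * q : ℕ) : ℤ) * (l / q)))⁻¹ * e ^ ((d : ℤ) * l) *
            ((e ^ ((d : ℤ) * l))⁻¹ * x) := by
        rw [e2, zpow_add]
        group
      rw [h5]
      exact N.mul_mem ((conj_zpow he _).2 (N.inv_mem h4)) hl
  · rintro ⟨i, _, hi⟩
    have e1 : x = e ^ (d * i) * ((e ^ (d * i))⁻¹ * x) := by group
    rw [e1, pow_mul]
    refine Subgroup.mul_mem _ (Subgroup.mem_sup_right (Subgroup.pow_mem _ (Subgroup.mem_zpowers _) _)) ?_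
    refine Subgroup.mem_sup_left ?_
    rw [← pow_mul]
    exact hi

/-- the coset is unique -/
theorem uniq {m d : ℕ} (hm : 0 < m) (hk : ∀ k : ℕ, e ^ k ∈ N ↔ m ∣ k)
    (hd : d ∣ m) (x : G) {i j : ℕ} (hi : i < m / d) (hj : j < m / d) (h1 : (e ^ (d * i))⁻¹ * x ∈ N)
    (h2 : (e ^ (d * j))⁻¹ * x ∈ N) : i = j := by
  have h3 := N.mul_mem h1 (N.inv_mem h2)
  have e1 : (e ^ (d * i))⁻¹ * x * ((e ^ (d * j))⁻¹ * x)⁻¹ = e ^ ((d : ℤ) * ((j : ℤ) - i)) := by
    have : (d : ℤ) * ((j : ℤ) - i) = -((d * i : ℕ) : ℤ) + ((d * j : ℕ) : ℤ) := by push_cast; ring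
    rw [this, zpow_add, zpow_neg, zpow_natCast, zpow_natCast]
    group
  rw [e1, zmem hk] at h3
  obtain ⟨q, rfl⟩ := hd
  have hd0 : 0 < d := by
    rcases Nat.eq_zero_or_pos d with h0 | h0
    · subst h0; simp at hm
    · exact h0
  rw [Nat.mul_div_cancel_left _ hd0] at hi hj
  push_cast at h3
  have h4 : (q : ℤ) ∣ (j : ℤ) - i := Int.dvd_of_mul_dvd_mul_left (by exact_mod_cast hd0.ne') h3
  have h5 : |(j : ℤ) - i| < q := by
    rw [abs_lt]
    constructor <;> omega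
  have h6 := Int.eq_zero_of_abs_lt_dvd h4 h5
  omega

/-- the elements of order prime to `m` are in `N` -/
theorem pelt (he : conjSub e N = N) {m d p : ℕ} [Fact p.Prime] (hm : 0 < m)
    (hk : ∀ k : ℕ, e ^ k ∈ N ↔ m ∣ k) (hp : ¬ p ∣ m) (hd : d ∣ m) {x : G}
    (hx : x ∈ N ⊔ Subgroup.zpowers (e ^ d)) (s : ℕ) (hs : x ^ p ^ s = 1) : x ∈ N := by
  obtain ⟨i, _, hi⟩ := (mem_ext he hm hk hd x).1 hx
  have hi' : (e ^ (((d * i : ℕ) : ℤ)))⁻¹ * x ∈ N := by rwa [zpow_natCast]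
  have h1 := cpow' he hi' (p ^ s)
  rw [hs, mul_one, inv_mem_iff, zmem hk] at h1
  have h2 : m ∣ d * i * p ^ s := by exact_mod_cast h1
  have h3 : Nat.Coprime m (p ^ s) :=
    Nat.Coprime.pow_right _ (((Fact.out : p.Prime).coprime_iff_not_dvd.2 hp).symm)
  have h4 := h3.dvd_of_dvd_mul_right h2
  have h5 := N.mul_mem ((hk _).2 h4) hi
  rwa [mul_inv_cancel_left] at h5

end

/-- the weights agree -/
theorem wt_eq (hW : S_W1) (G : Type) [Group G] [Finite G] (p : ℕ) (H M : Subgroup G) (hMH : M ≤ H)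
    (hpM : ∀ x ∈ H, (∃ s : ℕ, x ^ p ^ s = 1) → x ∈ M) (x y : H) :
    w (fx (above p ⊥) {x, y}) = w (fx (inside p M) {(x : G), (y : G)}) := by
  have hconj : ∀ (z : H) (P : Subgroup H), conjSub (z : G) (P.map H.subtype) =
      (conjSub z P).map H.subtype := by
    intro z P
    ext g
    rw [mem_conjSub, Subgroup.mem_map, Subgroup.mem_map]
    constructor
    · rintro ⟨h, hh, hg⟩
      refine ⟨z * h * z⁻¹, conj_mem_conjSub hh, ?_⟩
      change ((z * h * z⁻¹ : H) : G) = g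
      change (h : G) = _ at hg
      push_cast
      rw [hg]
      group
    · rintro ⟨h, hh, rfl⟩
      rw [mem_conjSub] at hh
      exact ⟨_, hh, rfl⟩
  refine hW H G _ _ (fun P => P.map H.subtype) (fun P _ Q _ => Subgroup.map_subtype_le_map_subtype) ?_
  ext Q
  constructor
  · rintro ⟨P, ⟨⟨hP1, hP2⟩, hP3⟩, rfl⟩
    refine ⟨⟨?_, ?_, ?_⟩, ?_⟩
    · exact hP1.map _
    · rw [Ne, Subgroup.map_eq_bot_iff_of_injective _ H.subtype_injective]
      exact hP2.ne'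
    · rintro _ ⟨h, hh, rfl⟩
      refine hpM _ h.2 ?_
      obtain ⟨s, hs⟩ := hP1 ⟨h, hh⟩
      refine ⟨s, ?_⟩
      have h1 := congrArg (fun z : P => ((z : H) : G)) hs
      simpa using h1
    · intro z hz
      rcases hz with rfl | hz
      · rw [hconj, hP3 _ (Or.inl rfl)]
      · rw [Set.mem_singleton_iff] at hz
        subst hz
        rw [hconj, hP3 _ (Or.inr rfl)]
  · rintro ⟨⟨hQ1, hQ2, hQ3⟩, hQ4⟩
    have hQH : Q ≤ H := hQ3.trans hMH
    have hmap : (Q.subgroupOf H).map H.subtype = Q := by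
      rw [Subgroup.subgroupOf_map_subtype, inf_eq_left.2 hQH]
    refine ⟨Q.subgroupOf H, ⟨⟨?_, ?_⟩, ?_⟩, hmap⟩
    · exact hQ1.comap_subtype
    · rw [bot_lt_iff_ne_bot]
      intro h0
      apply hQ2
      rw [← hmap, h0, Subgroup.map_bot]
    · intro z hz
      apply Subgroup.map_injective H.subtype_injective
      rw [← hconj, hmap]
      rcases hz with rfl | hz
      · exact hQ4 _ (Or.inl rfl)
      · rw [Set.mem_singleton_iff] at hz
        subst hz
        exact hQ4 _ (Or.inr rfl)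

theorem swap4 {G : Type} [Fintype G] (s : Finset ℕ) (F : G → G → ℕ → ℕ → ℂ) :
    ∑ x, ∑ y, ∑ i ∈ s, ∑ j ∈ s, F x y i j = ∑ i ∈ s, ∑ j ∈ s, ∑ x, ∑ y, F x y i j := by
  calc _ = ∑ x, ∑ i ∈ s, ∑ y, ∑ j ∈ s, F x y i j :=
        Finset.sum_congr rfl (fun x _ => Finset.sum_comm)
    _ = ∑ i ∈ s, ∑ x, ∑ y, ∑ j ∈ s, F x y i j := Finset.sum_comm
    _ = ∑ i ∈ s, ∑ x, ∑ j ∈ s, ∑ y, F x y i j :=
        Finset.sum_congr rfl (fun i _ => Finset.sum_congr rfl (fun x _ => Finset.sum_comm))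
    _ = _ := Finset.sum_congr rfl (fun i _ => Finset.sum_comm)

theorem krn : S_W1 → S_KRP → S_KRN := by
  intro hW hK p _ G _ _ N C e m d he hm hk hp hd
  set H : Subgroup G := C ⊓ (N ⊔ Subgroup.zpowers (e ^ d)) with hH
  have : Fintype G := Fintype.ofFinite G
  have hNH : N ⊓ C ≤ H := by
    rw [hH]
    exact le_inf inf_le_right (inf_le_left.trans le_sup_left)
  have h1 := hK p H
  have h2 : (Nat.card H : ℂ) * (krSum p H : ℂ) = ∑ x : G, ∑ y : G,
      (if x ∈ H then 1 else 0) * (if y ∈ H then 1 else 0) * wt2 p (N ⊓ C) x y := by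
    have e1 : (Nat.card H : ℂ) * (krSum p H : ℂ) = (((Nat.card H : ℤ) * krSum p H : ℤ) : ℂ) := by
      push_cast
      rfl
    rw [e1, h1, finsum_eq_sum_of_fintype, Int.cast_sum]
    have e2 : ∑ q : {q : H × H // q.1 * q.2 = q.2 * q.1},
        ((w (fx (above p ⊥) {q.1.1, q.1.2}) : ℤ) : ℂ) =
        ∑ q : H × H, wt2 p (N ⊓ C) (q.1 : G) (q.2 : G) := by
      rw [← Finset.sum_subtype (Finset.univ.filter (fun q : H × H => q.1 * q.2 = q.2 * q.1)) (by simp)
        (fun q : H × H => ((w (fx (above p ⊥) {q.1, q.2}) : ℤ) : ℂ)), Finset.sum_filter]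
      refine Finset.sum_congr rfl (fun q _ => ?_)
      unfold wt2
      have e3 : q.1 * q.2 = q.2 * q.1 ↔ (q.1 : G) * (q.2 : G) = (q.2 : G) * (q.1 : G) := by
        rw [Subtype.ext_iff]
        rfl
      simp only [e3]
      rw [wt_eq hW G p H (N ⊓ C) hNH _ q.1 q.2]
      rintro x hx ⟨s, hs⟩
      rw [hH] at hx
      exact ⟨pelt he hm hk hp hd hx.2 s hs, hx.1⟩
    rw [e2, Fintype.sum_prod_type]
    have e4 : ∀ f : G → ℂ, ∑ x : H, f x = ∑ x : G, (if x ∈ H then 1 else 0) * f x := by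
      intro f
      rw [← Finset.sum_subtype (Finset.univ.filter (fun x : G => x ∈ H)) (by simp) f,
        Finset.sum_filter]
      refine Finset.sum_congr rfl (fun x _ => ?_)
      split_ifs <;> simp
    rw [e4 (fun x => ∑ y : H, wt2 p (N ⊓ C) x y)]
    refine Finset.sum_congr rfl (fun x _ => ?_)
    rw [e4 (fun y => wt2 p (N ⊓ C) x y), Finset.mul_sum]
    refine Finset.sum_congr rfl (fun y _ => ?_)
    ring
  have h3 : ∀ x : G, (∑ i ∈ Finset.range (m / d),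
      (if (e ^ (d * i))⁻¹ * x ∈ N ∧ x ∈ C then (1 : ℂ) else 0)) = if x ∈ H then 1 else 0 := by
    intro x
    by_cases hx : x ∈ H
    · rw [if_pos hx]
      rw [hH] at hx
      obtain ⟨i, hi, hiN⟩ := (mem_ext he hm hk hd x).1 hx.2
      rw [Finset.sum_eq_single i]
      · rw [if_pos ⟨hiN, hx.1⟩]
      · intro j hj hji
        rw [if_neg]
        rintro ⟨h4, _⟩
        exact hji (uniq hm hk hd x (Finset.mem_range.1 hj) hi h4 hiN)
      · intro h5
        exact absurd (Finset.mem_range.2 hi) h5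
    · rw [if_neg hx]
      refine Finset.sum_eq_zero (fun i hi => ?_)
      rw [if_neg]
      rintro ⟨h4, h5⟩
      apply hx
      rw [hH]
      exact ⟨h5, (mem_ext he hm hk hd x).2 ⟨i, Finset.mem_range.1 hi, h4⟩⟩
  have h4 : ∀ i j : ℕ, pairSum N C e (wt2 p (N ⊓ C)) (d * i) (d * j) = ∑ x : G, ∑ y : G,
      (if (e ^ (d * i))⁻¹ * x ∈ N ∧ x ∈ C then (1 : ℂ) else 0) *
      (if (e ^ (d * j))⁻¹ * y ∈ N ∧ y ∈ C then (1 : ℂ) else 0) * wt2 p (N ⊓ C) x y := by
    intro i j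
    unfold pairSum
    rw [finsum_eq_sum_of_fintype,
      ← Finset.sum_subtype (Finset.univ.filter (fun q : G × G => (e ^ (d * i))⁻¹ * q.1 ∈ N ∧
        (e ^ (d * j))⁻¹ * q.2 ∈ N ∧ q.1 ∈ C ∧ q.2 ∈ C)) (by simp)
        (fun q : G × G => wt2 p (N ⊓ C) q.1 q.2), Finset.sum_filter, Fintype.sum_prod_type]
    refine Finset.sum_congr rfl (fun x _ => Finset.sum_congr rfl (fun y _ => ?_))
    by_cases a1 : (e ^ (d * i))⁻¹ * x ∈ N <;> by_cases a2 : (e ^ (d * j))⁻¹ * y ∈ N <;>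
      by_cases a3 : x ∈ C <;> by_cases a4 : y ∈ C <;> simp [a1, a2, a3, a4]
  rw [h2]
  simp only [h4, ← h3]
  rw [← swap4]
  refine Finset.sum_congr rfl (fun x _ => Finset.sum_congr rfl (fun y _ => ?_))
  rw [Finset.sum_mul_sum, Finset.sum_mul]
  refine Finset.sum_congr rfl (fun i _ => ?_)
  rw [Finset.sum_mul]

end Pool.Agent.Y475.DP
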